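import Pool.Agent.MP_9fbb57_co.Strict

namespace Pool.Agent.MP_9fbb57_co.Old.OffStrict

open Pool.Agent.MP_9fbb57_co.Off

/-- In the reverse clique game where the two players avoid cliques of sizes `a, b ≥ 2` that
differ by at least two, one of the players wins on all boards from some size `M` on, with `M`
strictly below the Ramsey number: the reverse win number is smaller than the Ramsey number. -/
theorem result (a b : ℕ) (ha : 2 ≤ a) (hb : 2 ≤ b) (h : a + 2 ≤ b ∨ b + 2 ≤ a) :
    ∃ M, M < R a b ∧
      ∀ N, M ≤ N → Wins (N := N) a b ∅ ∅ true ∨ Wins (N := N) b a ∅ ∅ false := by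
  rcases h with h | h
  · exact ⟨_, R_lt ha h, fun N hN => Or.inr (strict_wins ha h hN).1⟩
  · rw [R_comm]
    exact ⟨_, R_lt hb h, fun N hN => Or.inl (strict_wins hb h hN).2⟩

end Pool.Agent.MP_9fbb57_co.Old.OffStrict
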